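import Pool.Agent.T6.H18.EL.Defs

/-!
# Lattice points of the two lattices in large balls (module ASY of project EL)

The points of the lattice `{v | M ∣ v 0 - c₁ v 1 - c₂ v 2}` in a large ball are counted by means of
the linear map `u ↦ (M u 0 + c₁ u 1 + c₂ u 2, u 1, u 2)` and Mathlib's count of the integer points
in the dilates of a convex body.
-/

set_option autoImplicit false

open MeasureTheory Filter Topology Metric
open scoped Pointwise

namespace Pool.Agent.T6.H18.EL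

/-- the matrix of the linear map -/
noncomputable def asyMat (M c1 c2 : ℝ) : Matrix (Fin 3) (Fin 3) ℝ :=
  !![√2 * M, √2 * c1, √2 * c2; 0, √2, 0; 0, 0, √2]

/-- the body -/
def asyBody (M c1 c2 : ℝ) : Set (Fin 3 → ℝ) :=
  {y | 2 * ((M * y 0 + c1 * y 1 + c2 * y 2) ^ 2 + y 1 ^ 2 + y 2 ^ 2) ≤ 1}

lemma asy_det (M c1 c2 : ℝ) : LinearMap.det (Matrix.toLin' (asyMat M c1 c2)) = 2 * √2 * M := by
  rw [LinearMap.det_toLin']
  unfold asyMat
  rw [Matrix.det_fin_three]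
  simp
  have h : √2 * √2 = 2 := Real.mul_self_sqrt (by norm_num)
  linear_combination (√2 * M) * h

lemma asy_norm_pt_le (v : Fin 3 → ℤ) {x : ℝ} (hx : 0 ≤ x) :
    ‖pt v‖ ≤ x ↔ 2 * ((v 0 : ℝ) ^ 2 + (v 1 : ℝ) ^ 2 + (v 2 : ℝ) ^ 2) ≤ x ^ 2 := by
  rw [EuclideanSpace.norm_eq, Real.sqrt_le_left hx]
  unfold pt
  simp only [Fin.sum_univ_three, Real.norm_eq_abs, sq_abs]
  have h : √2 ^ 2 = 2 := Real.sq_sqrt (by norm_num)
  rw [mul_pow, mul_pow, mul_pow, h]
  constructor <;> intro h' <;> linarith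

lemma asyBody_eq (M c1 c2 : ℝ) : asyBody M c1 c2 = (Matrix.toLin' (asyMat M c1 c2)) ⁻¹'
    ((WithLp.toLp 2 : (Fin 3 → ℝ) → E3) ⁻¹' closedBall (0 : E3) 1) := by
  ext y
  simp only [asyBody, Set.mem_setOf_eq, Set.mem_preimage, mem_closedBall, dist_zero_right]
  rw [EuclideanSpace.norm_eq, Real.sqrt_le_left zero_le_one]
  simp only [Fin.sum_univ_three, Real.norm_eq_abs, sq_abs, one_pow]
  have h : √2 ^ 2 = 2 := Real.sq_sqrt (by norm_num)
  have e0 : (Matrix.toLin' (asyMat M c1 c2)) y 0 = √2 * (M * y 0 + c1 * y 1 + c2 * y 2) := by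
    simp [asyMat, Matrix.toLin'_apply, Matrix.mulVec, dotProduct, Fin.sum_univ_three]; ring
  have e1 : (Matrix.toLin' (asyMat M c1 c2)) y 1 = √2 * y 1 := by
    simp [asyMat, Matrix.toLin'_apply, Matrix.mulVec, dotProduct, Fin.sum_univ_three]
  have e2 : (Matrix.toLin' (asyMat M c1 c2)) y 2 = √2 * y 2 := by
    simp [asyMat, Matrix.toLin'_apply, Matrix.mulVec, dotProduct, Fin.sum_univ_three]
  rw [e0, e1, e2, mul_pow, mul_pow, mul_pow, h]
  constructor <;> intro h' <;> linarith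

lemma asy_convex (M c1 c2 : ℝ) : Convex ℝ (asyBody M c1 c2) := by
  rw [asyBody_eq]
  have h1 : Convex ℝ ((WithLp.toLp 2 : (Fin 3 → ℝ) → E3) ⁻¹' closedBall (0 : E3) 1) :=
    (convex_closedBall (0 : E3) 1).linear_preimage
      ((WithLp.linearEquiv 2 ℝ (Fin 3 → ℝ)).symm : (Fin 3 → ℝ) →ₗ[ℝ] E3)
  exact h1.linear_preimage (Matrix.toLin' (asyMat M c1 c2))

lemma asy_meas (M c1 c2 : ℝ) : MeasurableSet (asyBody M c1 c2) := by
  apply IsClosed.measurableSet
  unfold asyBody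
  exact isClosed_le (by fun_prop) continuous_const

lemma asy_vol {M : ℝ} (hM : 0 < M) (c1 c2 : ℝ) :
    volume.real (asyBody M c1 c2) = 4 * Real.pi / 3 / (2 * √2 * M) := by
  have hd : LinearMap.det (Matrix.toLin' (asyMat M c1 c2)) ≠ 0 := by
    rw [asy_det]; positivity
  rw [Measure.real, asyBody_eq, Measure.addHaar_preimage_linearMap volume hd, asy_det,
    (PiLp.volume_preserving_toLp (Fin 3)).measure_preimage
      (isClosed_closedBall.measurableSet.nullMeasurableSet),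
    EuclideanSpace.volume_closedBall_fin_three]
  rw [ENNReal.toReal_mul, ENNReal.toReal_mul, ENNReal.toReal_ofReal (abs_nonneg _),
    ENNReal.toReal_ofReal (by positivity), abs_of_pos (by positivity)]
  simp
  field_simp

lemma asy_bdd {M : ℝ} (hM : 0 < M) (c1 c2 : ℝ) : Bornology.IsBounded (asyBody M c1 c2) := by
  have hd : LinearMap.det (Matrix.toLin' (asyMat M c1 c2)) ≠ 0 := by
    rw [asy_det]; positivity
  refine (isBounded_iff_forall_norm_le).2 ⟨1 + (1 + |c1| + |c2|) / M, fun y hy => ?_⟩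
  simp only [asyBody, Set.mem_setOf_eq] at hy
  have hR : 0 ≤ (1 + |c1| + |c2|) / M := by positivity
  have hy1 : |y 1| ≤ 1 := by
    rw [abs_le_one_iff_mul_self_le_one]; nlinarith [sq_nonneg (M * y 0 + c1 * y 1 + c2 * y 2), sq_nonneg (y 2)]
  have hy2 : |y 2| ≤ 1 := by
    rw [abs_le_one_iff_mul_self_le_one]; nlinarith [sq_nonneg (M * y 0 + c1 * y 1 + c2 * y 2), sq_nonneg (y 1)]
  have hy3 : |M * y 0 + c1 * y 1 + c2 * y 2| ≤ 1 := by
    rw [abs_le_one_iff_mul_self_le_one]; nlinarith [sq_nonneg (y 1), sq_nonneg (y 2)]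
  have hy0 : |y 0| ≤ (1 + |c1| + |c2|) / M := by
    rw [le_div_iff₀ hM]
    have e : y 0 * M = (M * y 0 + c1 * y 1 + c2 * y 2) - c1 * y 1 - c2 * y 2 := by ring
    have e1 : |y 0| * M = |y 0 * M| := by rw [abs_mul, abs_of_pos hM]
    have e2 : |c1 * y 1| ≤ |c1| := by
      rw [abs_mul]; nlinarith [abs_nonneg c1, abs_nonneg (y 1)]
    have e3 : |c2 * y 2| ≤ |c2| := by
      rw [abs_mul]; nlinarith [abs_nonneg c2, abs_nonneg (y 2)]
    rw [e1, e]
    calc |(M * y 0 + c1 * y 1 + c2 * y 2) - c1 * y 1 - c2 * y 2|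
        ≤ |(M * y 0 + c1 * y 1 + c2 * y 2) - c1 * y 1| + |c2 * y 2| := abs_sub _ _
      _ ≤ |M * y 0 + c1 * y 1 + c2 * y 2| + |c1 * y 1| + |c2 * y 2| := by
          gcongr; exact abs_sub _ _
      _ ≤ 1 + |c1| + |c2| := by linarith
  rw [pi_norm_le_iff_of_nonneg (by linarith)]
  intro i
  fin_cases i
  · simp only [Real.norm_eq_abs]; exact hy0.trans (by linarith)
  · simp only [Real.norm_eq_abs]; exact hy1.trans (by linarith)
  · simp only [Real.norm_eq_abs]; exact hy2.trans (by linarith)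

lemma asy_mono (M c1 c2 : ℝ) ⦃x y : ℝ⦄ (hx : 0 < x) (hxy : x ≤ y) :
    x • asyBody M c1 c2 ⊆ y • asyBody M c1 c2 := by
  have hy : 0 < y := hx.trans_le hxy
  intro z hz
  rw [Set.mem_smul_set_iff_inv_smul_mem₀ hx.ne'] at hz
  rw [Set.mem_smul_set_iff_inv_smul_mem₀ hy.ne']
  have h0 : (0 : Fin 3 → ℝ) ∈ asyBody M c1 c2 := by simp [asyBody]
  have : y⁻¹ • z = (x / y) • (x⁻¹ • z) + (1 - x / y) • (0 : Fin 3 → ℝ) := by
    rw [smul_smul, smul_zero, add_zero]
    congr 1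
    field_simp
  rw [this]
  refine asy_convex M c1 c2 hz h0 (by positivity) ?_ (by ring)
  rw [sub_nonneg, div_le_one hy]
  exact hxy

/-- the integer points -/
lemma asy_mem_smul (x : ℝ) (hx : 0 < x) (y : Fin 3 → ℝ) :
    y ∈ x⁻¹ • ((Submodule.span ℤ (Set.range (Pi.basisFun ℝ (Fin 3))) :
      Submodule ℤ (Fin 3 → ℝ)) : Set (Fin 3 → ℝ)) ↔
    ∃ u : Fin 3 → ℤ, y = x⁻¹ • (fun i => (u i : ℝ)) := by
  rw [Set.mem_smul_set_iff_inv_smul_mem₀ (inv_ne_zero hx.ne'), inv_inv, SetLike.mem_coe,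
    Module.Basis.mem_span_iff_repr_mem]
  constructor
  · intro h
    choose u hu using h
    refine ⟨u, ?_⟩
    have : x • y = fun i => (u i : ℝ) := by
      funext i
      have := hu i
      simp only [Pi.basisFun_repr] at this
      rw [← this]
      simp
    rw [← this, smul_smul, inv_mul_cancel₀ hx.ne', one_smul]
  · rintro ⟨u, rfl⟩ i
    refine ⟨u i, ?_⟩
    rw [smul_smul, mul_inv_cancel₀ hx.ne', one_smul]
    simp

/-- the lattice -/
def asyLat (M c1 c2 : ℤ) : Set (Fin 3 → ℤ) := {v | M ∣ v 0 - c1 * v 1 - c2 * v 2}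

lemma asy_cnt {M : ℤ} (hM : 0 < M) (c1 c2 : ℤ) {x : ℝ} (hx : 0 < x) :
    (cnt (asyLat M c1 c2) x : ℝ) =
      (Nat.card ↑(asyBody M c1 c2 ∩ x⁻¹ • ((Submodule.span ℤ (Set.range (Pi.basisFun ℝ (Fin 3))) :
      Submodule ℤ (Fin 3 → ℝ)) : Set (Fin 3 → ℝ))) : ℝ) := by
  set U : Set (Fin 3 → ℤ) := {u | 2 * (((M : ℝ) * u 0 + c1 * u 1 + c2 * u 2) ^ 2 + (u 1 : ℝ) ^ 2 +
    (u 2 : ℝ) ^ 2) ≤ x ^ 2} with hU
  have h1 : {v | v ∈ asyLat M c1 c2 ∧ ‖pt v‖ ≤ x} =
      (fun u : Fin 3 → ℤ => (![M * u 0 + c1 * u 1 + c2 * u 2, u 1, u 2] : Fin 3 → ℤ)) '' U := by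
    ext v
    simp only [Set.mem_setOf_eq, Set.mem_image, asyLat, asy_norm_pt_le v hx.le, hU]
    constructor
    · rintro ⟨⟨k, hk⟩, hv⟩
      refine ⟨![k, v 1, v 2], ?_, ?_⟩
      · have : (v 0 : ℝ) = M * k + c1 * v 1 + c2 * v 2 := by
          have : v 0 = M * k + c1 * v 1 + c2 * v 2 := by linarith
          rw [this]; push_cast; ring
        simp
        rw [← this]
        exact hv
      · funext i
        fin_cases i
        · simp; linarith
        · simp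
        · simp
    · rintro ⟨u, hu, rfl⟩
      refine ⟨⟨u 0, ?_⟩, ?_⟩
      · simp; ring
      · simp
        exact hu
  have h2 : asyBody M c1 c2 ∩ x⁻¹ • ((Submodule.span ℤ (Set.range (Pi.basisFun ℝ (Fin 3))) :
      Submodule ℤ (Fin 3 → ℝ)) : Set (Fin 3 → ℝ)) =
      (fun u : Fin 3 → ℤ => (x⁻¹ • (fun i => (u i : ℝ)) : Fin 3 → ℝ)) '' U := by
    have key : ∀ u : Fin 3 → ℤ, (x⁻¹ • (fun i => (u i : ℝ)) : Fin 3 → ℝ) ∈ asyBody M c1 c2 ↔
        u ∈ U := by
      intro u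
      simp only [asyBody, hU, Set.mem_setOf_eq, Pi.smul_apply, smul_eq_mul]
      have e : 2 * (((M : ℝ) * (x⁻¹ * (u 0 : ℝ)) + c1 * (x⁻¹ * (u 1 : ℝ)) + c2 * (x⁻¹ * (u 2 : ℝ))) ^ 2 +
          (x⁻¹ * (u 1 : ℝ)) ^ 2 + (x⁻¹ * (u 2 : ℝ)) ^ 2) =
          (2 * (((M : ℝ) * u 0 + c1 * u 1 + c2 * u 2) ^ 2 + (u 1 : ℝ) ^ 2 +
            (u 2 : ℝ) ^ 2)) / x ^ 2 := by
        field_simp
      rw [e, div_le_one (by positivity)]
    ext y
    rw [Set.mem_inter_iff, asy_mem_smul x hx, Set.mem_image]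
    constructor
    · rintro ⟨hy, u, rfl⟩
      exact ⟨u, (key u).1 hy, rfl⟩
    · rintro ⟨u, hu, rfl⟩
      exact ⟨(key u).2 hu, u, rfl⟩
  have i1 : Function.Injective (fun u : Fin 3 → ℤ =>
      (![M * u 0 + c1 * u 1 + c2 * u 2, u 1, u 2] : Fin 3 → ℤ)) := by
    intro u w h
    have h0 := congrFun h 0
    have h1 := congrFun h 1
    have h2 := congrFun h 2
    simp at h0 h1 h2
    rw [h1, h2] at h0
    have h3 : M * u 0 = M * w 0 := by linarith
    have h4 := mul_left_cancel₀ hM.ne' h3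
    funext i
    fin_cases i
    · exact h4
    · exact h1
    · exact h2
  have i2 : Function.Injective (fun u : Fin 3 → ℤ =>
      (x⁻¹ • (fun i => (u i : ℝ)) : Fin 3 → ℝ)) := by
    intro u w h
    funext i
    have := congrFun h i
    simp only [Pi.smul_apply, smul_eq_mul] at this
    have := mul_left_cancel₀ (inv_ne_zero hx.ne') this
    exact_mod_cast this
  unfold cnt
  rw [h1, h2, Set.ncard_image_of_injective _ i1, Nat.card_coe_set_eq,
    Set.ncard_image_of_injective _ i2]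

lemma asy_main {M : ℤ} (hM : 0 < M) (c1 c2 : ℤ) :
    Tendsto (fun R : ℝ => (cnt (asyLat M c1 c2) R : ℝ) / R ^ 3) atTop
      (𝓝 (4 * Real.pi / 3 / (2 * √2 * M))) := by
  have hM' : (0 : ℝ) < M := by exact_mod_cast hM
  have h := tendsto_card_div_pow_atTop_volume' (asyBody (M : ℝ) c1 c2) (asy_bdd hM' c1 c2)
    (asy_meas _ _ _) ((asy_convex _ _ _).addHaar_frontier volume) (asy_mono _ _ _)
  rw [asy_vol hM', Fintype.card_fin] at h
  refine h.congr' ?_
  filter_upwards [eventually_gt_atTop 0] with x hx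
  rw [asy_cnt hM c1 c2 hx]

lemma asy_Lam : Lam = asyLat 2 1 1 := by
  ext v
  simp only [Lam, asyLat, Set.mem_setOf_eq, even_iff_two_dvd]
  omega

lemma asy_Lam13 : Lam13 = asyLat 26 (-3) (-9) := by
  ext v
  simp only [Lam13, Lam, asyLat, Set.mem_setOf_eq, even_iff_two_dvd]
  omega

theorem asy (_hD : StmDIS) : StmASY := by
  constructor
  · rw [asy_Lam]
    have h := asy_main (M := 2) (by norm_num) 1 1
    have e : (2 * √2 * ((2 : ℤ) : ℝ)) = 4 * √2 := by push_cast; ring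
    rw [e] at h
    exact h
  · rw [asy_Lam13]
    have h := asy_main (M := 26) (by norm_num) (-3) (-9)
    have e : (2 * √2 * ((26 : ℤ) : ℝ)) = 52 * √2 := by push_cast; ring
    rw [e] at h
    exact h

end Pool.Agent.T6.H18.EL
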