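import Pool.Agent.T6.H18.EL.Defs

/-! Module CCT (MP_def58e_co). -/

set_option autoImplicit false

open MeasureTheory Filter Topology Metric

namespace Pool.Agent.T6.H18.EL

namespace ModCCT

/-- the 13 short vectors, as triples -/
def L13 : Finset (ℤ × ℤ × ℤ) :=
  {(0, 0, 0), (1, 1, 0), (1, -1, 0), (-1, 1, 0), (-1, -1, 0), (1, 0, 1), (1, 0, -1), (-1, 0, 1),
    (-1, 0, -1), (0, 1, 1), (0, 1, -1), (0, -1, 1), (0, -1, -1)}

theorem card_L13 : L13.card = 13 := by decide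

/-- the vector of a triple -/
def vec (p : ℤ × ℤ × ℤ) : Fin 3 → ℤ := ![p.1, p.2.1, p.2.2]

theorem short_L13 : ∀ p ∈ L13, p.1 ^ 2 + p.2.1 ^ 2 + p.2.2 ^ 2 ≤ 2 ∧
    (p.1 + p.2.1 + p.2.2) % 2 = 0 := by decide

theorem vec_inj : Function.Injective vec := by
  intro p q h
  have h0 := congrFun h 0
  have h1 := congrFun h 1
  have h2 := congrFun h 2
  simp [vec] at h0 h1 h2
  exact Prod.ext h0 (Prod.ext h1 h2)

end ModCCT

open ModCCT

theorem cct (hD : StmDIS) : StmCCT := by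
  classical
  intro D hDL hcode R
  obtain ⟨hdist, hfin, -⟩ := hD
  have f1 : ({v | v ∈ D ∧ ‖pt v‖ ≤ R} : Set (Fin 3 → ℤ)).Finite :=
    (hfin R).subset fun v hv => hv.2
  have f2 : ({v | v ∈ Lam ∧ ‖pt v‖ ≤ R + 2} : Set (Fin 3 → ℤ)).Finite :=
    (hfin (R + 2)).subset fun v hv => hv.2
  unfold cnt
  rw [Set.ncard_eq_toFinset_card _ f1, Set.ncard_eq_toFinset_card _ f2, ← card_L13, mul_comm,
    ← Finset.card_product]
  have hsq : ∀ (v : Fin 3 → ℤ), ∀ p ∈ L13, sq (v + vec p - v) ≤ 2 := by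
    intro v p hp
    have h1 := (short_L13 p hp).1
    have h2 : sq (v + vec p - v) = p.1 ^ 2 + p.2.1 ^ 2 + p.2.2 ^ 2 := by
      rw [add_sub_cancel_left]
      simp [sq, vec]
    rw [h2]; exact h1
  have hL : ∀ v ∈ Lam, ∀ p ∈ L13, v + vec p ∈ Lam := by
    intro v hv p hp
    have h1 := (short_L13 p hp).2
    have h2 : Even (v 0 + v 1 + v 2) := hv
    show Even ((v + vec p) 0 + (v + vec p) 1 + (v + vec p) 2)
    have h3 : (v + vec p) 0 + (v + vec p) 1 + (v + vec p) 2 =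
        (v 0 + v 1 + v 2) + (p.1 + p.2.1 + p.2.2) := by
      simp [vec]; ring
    rw [h3]
    exact h2.add (Int.even_iff.2 h1)
  refine Finset.card_le_card_of_injOn (fun q => q.1 + vec q.2) ?_ ?_
  · rintro ⟨v, p⟩ hq
    rw [Finset.mem_coe, Finset.mem_product, Set.Finite.mem_toFinset] at hq
    obtain ⟨⟨hv, hvR⟩, hp⟩ := hq
    rw [Finset.mem_coe, Set.Finite.mem_toFinset]
    refine ⟨hL v (hDL hv) p hp, ?_⟩
    have h1 : ‖pt (v + vec p)‖ ≤ ‖pt v‖ + dist (pt (v + vec p)) (pt v) := by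
      rw [dist_eq_norm]
      have := norm_add_le (pt v) (pt (v + vec p) - pt v)
      rwa [add_sub_cancel] at this
    have h2 : dist (pt (v + vec p)) (pt v) ≤ 2 := by
      rw [hdist]
      have h3 : ((sq (v + vec p - v) : ℤ) : ℝ) ≤ 2 := by exact_mod_cast hsq v p hp
      calc √(2 * ((sq (v + vec p - v) : ℤ) : ℝ)) ≤ √(2 ^ 2) := by
            apply Real.sqrt_le_sqrt
            linarith
        _ = 2 := Real.sqrt_sq (by norm_num)
    show ‖pt (v + vec p)‖ ≤ R + 2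
    have h3 : ‖pt v‖ ≤ R := hvR
    linarith
  · rintro ⟨v, p⟩ hq ⟨w, p'⟩ hq' he
    rw [Finset.mem_coe, Finset.mem_product, Set.Finite.mem_toFinset] at hq hq'
    obtain ⟨⟨hv, -⟩, hp⟩ := hq
    obtain ⟨⟨hw, -⟩, hp'⟩ := hq'
    have he' : v + vec p = w + vec p' := he
    have hvw : v = w := by
      refine hcode v hv w hw (v + vec p) (hL v (hDL hv) p hp) (hsq v p hp) ?_
      rw [he']
      exact hsq w p' hp'
    subst hvw
    have h1 := vec_inj (add_left_cancel he')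
    rw [h1]

end Pool.Agent.T6.H18.EL
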