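import Pool.Agent.T6.H18.EL.Defs

/-! Module COD (MP_def58e_co). -/

set_option autoImplicit false

open MeasureTheory Filter Topology Metric

namespace Pool.Agent.T6.H18.EL

namespace ModCOD

/-- the 12 vectors of squared length 2, as triples -/
def L12 : Finset (ℤ × ℤ × ℤ) :=
  {(1, 1, 0), (1, -1, 0), (-1, 1, 0), (-1, -1, 0), (1, 0, 1), (1, 0, -1), (-1, 0, 1),
    (-1, 0, -1), (0, 1, 1), (0, 1, -1), (0, -1, 1), (0, -1, -1)}

theorem card_L12 : L12.card = 12 := by decide

/-- the vector of a triple -/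
def vec (p : ℤ × ℤ × ℤ) : Fin 3 → ℤ := ![p.1, p.2.1, p.2.2]

theorem vec0 (p : ℤ × ℤ × ℤ) : vec p 0 = p.1 := rfl
theorem vec1 (p : ℤ × ℤ × ℤ) : vec p 1 = p.2.1 := rfl
theorem vec2 (p : ℤ × ℤ × ℤ) : vec p 2 = p.2.2 := rfl

/-- squared distance of two triples -/
def sd (p q : ℤ × ℤ × ℤ) : ℤ := (p.1 - q.1) ^ 2 + (p.2.1 - q.2.1) ^ 2 + (p.2.2 - q.2.2) ^ 2

theorem sq_vec_sub (p q : ℤ × ℤ × ℤ) : sq (vec p - vec q) = sd p q := by
  simp [sq, vec, sd]

theorem L12_sq : ∀ p ∈ L12, p.1 ^ 2 + p.2.1 ^ 2 + p.2.2 ^ 2 = 2 ∧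
    (p.1 + p.2.1 + p.2.2) % 2 = 0 := by decide

theorem L12_neg : ∀ p ∈ L12, (-p.1, -p.2.1, -p.2.2) ∈ L12 := by decide

theorem L12_conn : ∀ p ∈ L12, ∀ p' ∈ L12, ∃ q ∈ L12, ∃ r ∈ L12,
    (p = q ∨ sd p q = 2) ∧ (q = r ∨ sd q r = 2) ∧ (r = p' ∨ sd r p' = 2) := by
  decide +kernel

theorem sq_vec (p : ℤ × ℤ × ℤ) (hp : p ∈ L12) : sq (vec p) = 2 := by
  have h := (L12_sq p hp).1
  simp [sq, vec, h]

theorem vec_inj : Function.Injective vec := by
  intro p q h
  have h0 := congrFun h 0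
  have h1 := congrFun h 1
  have h2 := congrFun h 2
  simp [vec] at h0 h1 h2
  exact Prod.ext h0 (Prod.ext h1 h2)

theorem exists_vec (e : Fin 3 → ℤ) (h : sq e = 2) : ∃ p ∈ L12, e = vec p := by
  refine ⟨(e 0, e 1, e 2), ?_, ?_⟩
  · unfold sq at h
    generalize e 0 = a at h ⊢
    generalize e 1 = b at h ⊢
    generalize e 2 = c at h ⊢
    have ha1 : a ≤ 1 := by nlinarith [sq_nonneg b, sq_nonneg c]
    have ha2 : -1 ≤ a := by nlinarith [sq_nonneg b, sq_nonneg c]
    have hb1 : b ≤ 1 := by nlinarith [sq_nonneg a, sq_nonneg c]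
    have hb2 : -1 ≤ b := by nlinarith [sq_nonneg a, sq_nonneg c]
    have hc1 : c ≤ 1 := by nlinarith [sq_nonneg a, sq_nonneg b]
    have hc2 : -1 ≤ c := by nlinarith [sq_nonneg a, sq_nonneg b]
    interval_cases a <;> interval_cases b <;> interval_cases c <;> first | omega | decide
  · funext i
    fin_cases i <;> rfl

theorem sq_comm (v w : Fin 3 → ℤ) : sq (v - w) = sq (w - v) := by
  simp only [sq, Pi.sub_apply]; ring

theorem add_mem {v : Fin 3 → ℤ} (hv : v ∈ Lam) {p : ℤ × ℤ × ℤ} (hp : p ∈ L12) :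
    v + vec p ∈ Lam := by
  have h1 := (L12_sq p hp).2
  have h2 : Even (v 0 + v 1 + v 2) := hv
  show Even ((v + vec p) 0 + (v + vec p) 1 + (v + vec p) 2)
  have h3 : (v + vec p) 0 + (v + vec p) 1 + (v + vec p) 2 =
      (v 0 + v 1 + v 2) + (p.1 + p.2.1 + p.2.2) := by
    simp [vec]; ring
  rw [h3]
  exact h2.add (Int.even_iff.2 h1)

/-- a neighbour of a point of `Lam` is in `Lam` -/
theorem nb_mem {v u : Fin 3 → ℤ} (hv : v ∈ Lam) (h : sq (u - v) = 2) : u ∈ Lam := by
  obtain ⟨p, hp, he⟩ := exists_vec _ h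
  have : u = v + vec p := by rw [← he]; abel
  rw [this]
  exact add_mem hv hp

/-- at most one neighbour of a point of `A` is missing -/
theorem one {A : Set (Fin 3 → ℤ)} (h : ∀ v ∈ A, 11 ≤ (nbr A v).ncard) {a x y : Fin 3 → ℤ}
    (ha : a ∈ A) (hx : sq (x - a) = 2) (hy : sq (y - a) = 2) (hxy : x ≠ y) (hxA : x ∉ A)
    (hyA : y ∉ A) : False := by
  classical
  obtain ⟨p, hp, hpe⟩ := exists_vec _ hx
  obtain ⟨q, hq, hqe⟩ := exists_vec _ hy
  have hpx : x = a + vec p := by rw [← hpe]; abel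
  have hqy : y = a + vec q := by rw [← hqe]; abel
  have hpq : p ≠ q := by
    rintro rfl
    exact hxy (hpx.trans hqy.symm)
  have hsub : nbr A a ⊆ (((L12.erase p).erase q).image fun r => a + vec r : Finset _) := by
    intro w hw
    obtain ⟨hwA, hw2⟩ := hw
    obtain ⟨r, hr, hre⟩ := exists_vec _ hw2
    have hwr : w = a + vec r := by rw [← hre]; abel
    rw [Finset.mem_coe, Finset.mem_image]
    refine ⟨r, ?_, hwr.symm⟩
    rw [Finset.mem_erase, Finset.mem_erase]
    refine ⟨?_, ?_, hr⟩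
    · rintro rfl
      exact hyA (hqy ▸ hwr ▸ hwA)
    · rintro rfl
      exact hxA (hpx ▸ hwr ▸ hwA)
  have h1 := Set.ncard_le_ncard hsub (Finset.finite_toSet _)
  rw [Set.ncard_coe_finset] at h1
  have h2 : (((L12.erase p).erase q).image fun r => a + vec r).card ≤ 10 := by
    refine Finset.card_image_le.trans ?_
    rw [Finset.card_erase_of_mem, Finset.card_erase_of_mem hp, card_L12]
    rw [Finset.mem_erase]
    exact ⟨hpq.symm, hq⟩
  have h3 := h a ha
  omega

theorem zsmul_closed {G : Set (Fin 3 → ℤ)} {c : Fin 3 → ℤ} (h1 : ∀ g ∈ G, g + c ∈ G)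
    (h2 : ∀ g ∈ G, g - c ∈ G) (n : ℤ) : ∀ g ∈ G, g + n • c ∈ G := by
  induction n using Int.induction_on with
  | zero => intro g hg; simpa using hg
  | succ n ih =>
    intro g hg
    have h3 : g + ((n : ℤ) + 1) • c = (g + (n : ℤ) • c) + c := by
      rw [add_smul, one_smul, add_assoc]
    rw [h3]
    exact h1 _ (ih g hg)
  | pred n ih =>
    intro g hg
    have h3 : g + (-(n : ℤ) - 1) • c = (g + (-(n : ℤ)) • c) - c := by
      rw [sub_smul, one_smul]; abel
    rw [h3]
    exact h2 _ (ih g hg)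

end ModCOD

open ModCOD

theorem cod : StmCOD := by
  classical
  intro A hAL hAne h11 v hv w hw u hu huv huw
  set D : Set (Fin 3 → ℤ) := Lam \ A with hD
  -- common neighbours of neighbours in `D` are in `D`
  have two : ∀ v ∈ D, ∀ w ∈ D, sq (w - v) = 2 → ∀ u, sq (u - v) = 2 → sq (u - w) = 2 →
      u ∈ D := by
    intro v hv w hw hvw u huv huw
    refine ⟨nb_mem hv.1 huv, fun huA => ?_⟩
    have hne : v ≠ w := by
      rintro rfl
      rw [sub_self] at hvw
      simp [sq] at hvw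
    exact one h11 huA (by rw [sq_comm]; exact huv) (by rw [sq_comm]; exact huw) hne hv.2 hw.2
  -- all neighbours
  have all : ∀ v ∈ D, ∀ p ∈ L12, v + vec p ∈ D → ∀ p' ∈ L12, v + vec p' ∈ D := by
    intro v hv p hp hvp p' hp'
    have step : ∀ q ∈ L12, v + vec q ∈ D → ∀ r ∈ L12, (q = r ∨ sd q r = 2) →
        v + vec r ∈ D := by
      intro q hq hvq r hr hqr
      rcases hqr with rfl | hqr
      · exact hvq
      · refine two v hv (v + vec q) hvq ?_ (v + vec r) ?_ ?_
        · rw [add_sub_cancel_left]; exact sq_vec q hq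
        · rw [add_sub_cancel_left]; exact sq_vec r hr
        · rw [add_sub_add_left_eq_sub, sq_comm, sq_vec_sub]; exact hqr
    obtain ⟨q, hq, r, hr, h1, h2, h3⟩ := L12_conn p hp p' hp'
    exact step r hr (step q hq (step p hp hvp q hq h1) r hr h2) p' hp' h3
  -- no two neighbours in `D`
  have none : ∀ v ∈ D, ∀ w ∈ D, sq (w - v) ≠ 2 := by
    intro v hv w hw hvw
    set G : Set (Fin 3 → ℤ) := {g | g ∈ D ∧ ∃ p ∈ L12, g + vec p ∈ D} with hG
    have hvG : v ∈ G := by
      obtain ⟨p, hp, he⟩ := exists_vec _ hvw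
      refine ⟨hv, p, hp, ?_⟩
      have : v + vec p = w := by rw [← he]; abel
      rw [this]; exact hw
    have hadd : ∀ g ∈ G, ∀ p ∈ L12, g + vec p ∈ G := by
      rintro g ⟨hg, q, hq, hgq⟩ p hp
      have h1 := all g hg q hq hgq p hp
      refine ⟨h1, _, L12_neg p hp, ?_⟩
      have h2 : g + vec p + vec (-p.1, -p.2.1, -p.2.2) = g := by
        funext i
        fin_cases i
        · show g 0 + vec p 0 + vec (-p.1, -p.2.1, -p.2.2) 0 = g 0
          rw [vec0, vec0]; ring
        · show g 1 + vec p 1 + vec (-p.1, -p.2.1, -p.2.2) 1 = g 1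
          rw [vec1, vec1]; ring
        · show g 2 + vec p 2 + vec (-p.1, -p.2.1, -p.2.2) 2 = g 2
          rw [vec2, vec2]; ring
      rw [h2]; exact hg
    have hz : ∀ g ∈ G, ∀ p ∈ L12, ∀ n : ℤ, g + n • vec p ∈ G := by
      intro g hg p hp n
      refine zsmul_closed (fun g hg => hadd g hg p hp) (fun g hg => ?_) n g hg
      have h2 : g - vec p = g + vec (-p.1, -p.2.1, -p.2.2) := by
        funext i
        fin_cases i
        · show g 0 - vec p 0 = g 0 + vec (-p.1, -p.2.1, -p.2.2) 0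
          rw [vec0, vec0]; ring
        · show g 1 - vec p 1 = g 1 + vec (-p.1, -p.2.1, -p.2.2) 1
          rw [vec1, vec1]; ring
        · show g 2 - vec p 2 = g 2 + vec (-p.1, -p.2.1, -p.2.2) 2
          rw [vec2, vec2]; ring
      rw [h2]
      exact hadd g hg _ (L12_neg p hp)
    obtain ⟨a, ha⟩ := hAne
    have haL : Even (a 0 + a 1 + a 2) := hAL ha
    have hvL : Even (v 0 + v 1 + v 2) := hv.1
    obtain ⟨s, hs⟩ := haL
    obtain ⟨t, ht⟩ := hvL
    have h1 := hz v hvG (0, 1, 1) (by decide) (a 2 - v 2)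
    have h2 := hz _ h1 (1, 1, 0) (by decide) (s - t - (a 2 - v 2))
    have h3 := hz _ h2 (1, -1, 0) (by decide) (a 0 - v 0 - (s - t - (a 2 - v 2)))
    have h4 : v + (a 2 - v 2) • vec (0, 1, 1) + (s - t - (a 2 - v 2)) • vec (1, 1, 0) +
        (a 0 - v 0 - (s - t - (a 2 - v 2))) • vec (1, -1, 0) = a := by
      funext i
      fin_cases i
      · show v 0 + (a 2 - v 2) * (0 : ℤ) + (s - t - (a 2 - v 2)) * (1 : ℤ) +
          (a 0 - v 0 - (s - t - (a 2 - v 2))) * (1 : ℤ) = a 0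
        ring
      · show v 1 + (a 2 - v 2) * (1 : ℤ) + (s - t - (a 2 - v 2)) * (1 : ℤ) +
          (a 0 - v 0 - (s - t - (a 2 - v 2))) * (-1 : ℤ) = a 1
        linarith
      · show v 2 + (a 2 - v 2) * (1 : ℤ) + (s - t - (a 2 - v 2)) * (0 : ℤ) +
          (a 0 - v 0 - (s - t - (a 2 - v 2))) * (0 : ℤ) = a 2
        ring
    rw [h4] at h3
    exact h3.1.2 ha
  by_contra hvw
  have hpar : ∀ x ∈ Lam, ∀ y ∈ Lam, sq (x - y) ≤ 2 → x = y ∨ sq (x - y) = 2 := by
    intro x hx y hy hxy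
    have e1 : Even (x 0 + x 1 + x 2) := hx
    have e2 : Even (y 0 + y 1 + y 2) := hy
    have e3 : Even (sq (x - y)) := by
      have h1 : sq (x - y) = (x 0 + x 1 + x 2) - (y 0 + y 1 + y 2) +
          ((x 0 - y 0) * ((x 0 - y 0) - 1) + (x 1 - y 1) * ((x 1 - y 1) - 1) +
            (x 2 - y 2) * ((x 2 - y 2) - 1)) := by
        simp only [sq, Pi.sub_apply]; ring
      rw [h1]
      exact (e1.sub e2).add (((Int.even_mul_pred_self _).add (Int.even_mul_pred_self _)).add
        (Int.even_mul_pred_self _))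
    have h0 : 0 ≤ sq (x - y) := by unfold sq; positivity
    obtain ⟨k, hk⟩ := e3
    by_cases hk0 : k = 0
    · left
      rw [hk0] at hk
      simp only [sq, Pi.sub_apply] at hk
      funext i
      have q0 := sq_nonneg (x 0 - y 0)
      have q1 := sq_nonneg (x 1 - y 1)
      have q2 := sq_nonneg (x 2 - y 2)
      fin_cases i
      · have : (x 0 - y 0) ^ 2 = 0 := by linarith
        have := pow_eq_zero_iff (two_ne_zero) |>.1 this
        simpa [sub_eq_zero] using this
      · have : (x 1 - y 1) ^ 2 = 0 := by linarith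
        have := pow_eq_zero_iff (two_ne_zero) |>.1 this
        simpa [sub_eq_zero] using this
      · have : (x 2 - y 2) ^ 2 = 0 := by linarith
        have := pow_eq_zero_iff (two_ne_zero) |>.1 this
        simpa [sub_eq_zero] using this
    · right
      omega
  rcases hpar u hu v hv.1 huv with rfl | h1
  · rcases hpar u hu w hw.1 huw with h2 | h2
    · exact hvw h2
    · exact none w hw u hv h2
  · rcases hpar u hu w hw.1 huw with rfl | h2
    · exact none v hv u hw h1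
    · by_cases huA : u ∈ A
      · exact one h11 huA (by rw [sq_comm]; exact h1) (by rw [sq_comm]; exact h2) hvw hv.2 hw.2
      · exact none v hv u ⟨hu, huA⟩ h1

end Pool.Agent.T6.H18.EL
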