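import Pool.Agent.T6.H18.EL.Defs

/-! Project EL, module DIS: distances in the lattice. -/

set_option autoImplicit false

namespace Pool.Agent.T6.H18.EL

theorem dist_pt (v w : Fin 3 → ℤ) : dist (pt v) (pt w) = √(2 * (sq (v - w) : ℝ)) := by
  have h2 : √(2 : ℝ) ^ 2 = 2 := Real.sq_sqrt (by norm_num)
  rw [EuclideanSpace.dist_eq]
  congr 1
  rw [Fin.sum_univ_three]
  simp only [pt, Real.dist_eq, sq_abs, sq, Pi.sub_apply]
  push_cast
  have e : ∀ a b : ℝ, (√2 * a - √2 * b) ^ 2 = 2 * (a - b) ^ 2 := by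
    intro a b
    rw [← mul_sub, mul_pow, h2]
  rw [e, e, e]
  ring

theorem pt_zero : pt 0 = 0 := by
  ext i
  simp [pt]

theorem norm_pt (v : Fin 3 → ℤ) : ‖pt v‖ = √(2 * (sq v : ℝ)) := by
  have h := dist_pt v 0
  rwa [pt_zero, dist_zero_right, sub_zero] at h

theorem sq_coord_le (v : Fin 3 → ℤ) (i : Fin 3) : v i ^ 2 ≤ sq v := by
  unfold sq
  fin_cases i
  · change v 0 ^ 2 ≤ _
    nlinarith [sq_nonneg (v 1), sq_nonneg (v 2)]
  · change v 1 ^ 2 ≤ _
    nlinarith [sq_nonneg (v 0), sq_nonneg (v 2)]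
  · change v 2 ^ 2 ≤ _
    nlinarith [sq_nonneg (v 0), sq_nonneg (v 1)]

theorem abs_coord_le (v : Fin 3 → ℤ) (i : Fin 3) : |(v i : ℝ)| ≤ ‖pt v‖ := by
  rw [norm_pt]
  apply Real.abs_le_sqrt
  have h1 : ((v i ^ 2 : ℤ) : ℝ) ≤ (sq v : ℝ) := by exact_mod_cast sq_coord_le v i
  push_cast at h1
  nlinarith [sq_nonneg (v i : ℝ)]

theorem dis : StmDIS := by
  refine ⟨dist_pt, ?_, ?_⟩
  · intro R
    apply (Set.finite_Icc (fun _ : Fin 3 => -⌈R⌉) (fun _ : Fin 3 => ⌈R⌉)).subset
    intro v hv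
    have hv' : ‖pt v‖ ≤ R := hv
    have h1 : ∀ i, |(v i : ℝ)| ≤ (⌈R⌉ : ℝ) := fun i =>
      (abs_coord_le v i).trans (hv'.trans (Int.le_ceil R))
    constructor
    · intro i
      have h2 := (abs_le.mp (h1 i)).1
      have h3 : ((-⌈R⌉ : ℤ) : ℝ) ≤ (v i : ℝ) := by push_cast; exact h2
      exact_mod_cast h3
    · intro i
      have h2 := (abs_le.mp (h1 i)).2
      exact_mod_cast h2
  · intro v hv w hw hne
    have h1 : Even ((v - w) 0 + (v - w) 1 + (v - w) 2) := by
      have h2 : Even (v 0 + v 1 + v 2) := hv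
      have h3 : Even (w 0 + w 1 + w 2) := hw
      have h4 : (v - w) 0 + (v - w) 1 + (v - w) 2 = (v 0 + v 1 + v 2) - (w 0 + w 1 + w 2) := by
        simp only [Pi.sub_apply]; ring
      rw [h4]
      exact h2.sub h3
    have h5 : Even (sq (v - w)) := by
      unfold sq
      rw [Int.even_add, Int.even_add, Int.even_pow' (by norm_num), Int.even_pow' (by norm_num),
        Int.even_pow' (by norm_num), ← Int.even_add, ← Int.even_add]
      exact h1
    have h6 : 0 < sq (v - w) := by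
      obtain ⟨i, hi⟩ : ∃ i, (v - w) i ≠ 0 := by
        by_contra hcon
        push Not at hcon
        apply hne
        funext i
        have := hcon i
        rw [Pi.sub_apply] at this
        linarith
      have h7 := sq_coord_le (v - w) i
      have h8 : 0 < (v - w) i ^ 2 := by positivity
      linarith
    obtain ⟨k, hk⟩ := h5
    omega

end Pool.Agent.T6.H18.EL
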