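import Pool.Agent.T6.H18.EL.Defs

/-!
# Eleven-neighbour packings: the densities (helper38)
-/

set_option autoImplicit false

open MeasureTheory Filter Topology Metric

namespace Pool.Agent.T6.H18.EL

namespace FIN

lemma cnt_sub (hF : ∀ R : ℝ, {v : Fin 3 → ℤ | ‖pt v‖ ≤ R}.Finite) (A B : Set (Fin 3 → ℤ))
    (h : A ⊆ B) (R : ℝ) : (cnt (B \ A) R : ℝ) = cnt B R - cnt A R := by
  unfold cnt
  have hfA : {v | v ∈ A ∧ ‖pt v‖ ≤ R}.Finite := (hF R).subset fun v hv => hv.2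
  have hfB : {v | v ∈ B ∧ ‖pt v‖ ≤ R}.Finite := (hF R).subset fun v hv => hv.2
  have hsub : {v | v ∈ A ∧ ‖pt v‖ ≤ R} ⊆ {v | v ∈ B ∧ ‖pt v‖ ≤ R} := fun v hv => ⟨h hv.1, hv.2⟩
  have e : {v | v ∈ B \ A ∧ ‖pt v‖ ≤ R} =
      {v | v ∈ B ∧ ‖pt v‖ ≤ R} \ {v | v ∈ A ∧ ‖pt v‖ ≤ R} := by
    ext v
    simp only [Set.mem_setOf_eq, Set.mem_diff]
    tauto
  rw [e, Set.ncard_diff hsub hfA, Nat.cast_sub (Set.ncard_le_ncard hsub hfB)]

lemma shift (f : ℝ → ℝ) (l c : ℝ) (h : Tendsto (fun R : ℝ => f R / R ^ 3) atTop (𝓝 l)) :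
    Tendsto (fun R : ℝ => f (R + c) / R ^ 3) atTop (𝓝 l) := by
  have h1 : Tendsto (fun R : ℝ => R + c) atTop atTop := tendsto_atTop_add_const_right _ _ tendsto_id
  have h2 := h.comp h1
  have h3 : Tendsto (fun R : ℝ => 1 + c * R⁻¹) atTop (𝓝 (1 + c * 0)) :=
    tendsto_const_nhds.add (tendsto_const_nhds.mul tendsto_inv_atTop_zero)
  have h4 : Tendsto (fun R : ℝ => (1 + c * R⁻¹) ^ 3) atTop (𝓝 ((1 + c * 0) ^ 3)) := h3.pow 3
  have h5 := h2.mul h4
  have e1 : l * (1 + c * 0) ^ 3 = l := by ring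
  rw [e1] at h5
  refine h5.congr' ?_
  filter_upwards [eventually_gt_atTop (0 : ℝ), eventually_gt_atTop (-c)] with R hR hRc
  have hR0 : R ≠ 0 := hR.ne'
  have hRc0 : R + c ≠ 0 := by
    have : 0 < R + c := by linarith
    exact this.ne'
  simp only [Function.comp_apply]
  field_simp

lemma val : 4 * Real.pi / 3 / (4 * √2) * (12 / 13) = 12 / 13 * (Real.pi / √18) := by
  have h18 : √18 = 3 * √2 := by
    rw [show (18 : ℝ) = 3 ^ 2 * 2 by norm_num, Real.sqrt_mul (by norm_num),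
      Real.sqrt_sq (by norm_num)]
  rw [h18]
  have h2 : √2 ≠ 0 := by positivity
  field_simp

lemma val2 : 4 * Real.pi / 3 / (4 * √2) - 4 * Real.pi / 3 / (52 * √2) =
    12 / 13 * (Real.pi / √18) := by
  rw [← val]
  have h2 : √2 ≠ 0 := by positivity
  field_simp
  ring

lemma lower (hV : StmVOL) (A : Set (Fin 3 → ℤ)) (hA : A ⊆ Lam) (R : ℝ) (hR : 1 < R) :
    (cnt A (R - 2) : ℝ) / R ^ 3 ≤ cov A R / (4 * Real.pi / 3 * R ^ 3) := by
  have h := (hV A hA R hR).1
  have hP : 0 < 4 * Real.pi / 3 := by positivity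
  have hR3 : 0 < R ^ 3 := by positivity
  rw [div_le_div_iff₀ hR3 (by positivity)]
  nlinarith [mul_le_mul_of_nonneg_right h hR3.le]

lemma upper (hV : StmVOL) (A : Set (Fin 3 → ℤ)) (hA : A ⊆ Lam) (R : ℝ) (hR : 1 < R) :
    cov A R / (4 * Real.pi / 3 * R ^ 3) ≤ (cnt A (R + 1) : ℝ) / R ^ 3 := by
  have h := (hV A hA R hR).2
  have hP : 0 < 4 * Real.pi / 3 := by positivity
  have hR3 : 0 < R ^ 3 := by positivity
  rw [div_le_div_iff₀ (by positivity) hR3]
  nlinarith [mul_le_mul_of_nonneg_right h hR3.le]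

end FIN

open FIN in
theorem fin (hD : StmDIS) (hC : StmCOD) (hT : StmCCT) (hA : StmASY) (hV : StmVOL) : StmFIN := by
  obtain ⟨-, hF, -⟩ := hD
  obtain ⟨hA1, hA2⟩ := hA
  constructor
  · have hsub : Lam13 ⊆ Lam := fun v hv => hv.1
    have h1 : Tendsto (fun R : ℝ => (cnt (Lam \ Lam13) R : ℝ) / R ^ 3) atTop
        (𝓝 (12 / 13 * (Real.pi / √18))) := by
      have h2 := hA1.sub hA2
      rw [val2] at h2
      refine h2.congr fun R => ?_
      rw [cnt_sub hF Lam13 Lam hsub R, sub_div]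
    have hlo := shift (fun R => (cnt (Lam \ Lam13) R : ℝ)) _ (-2) h1
    have hup := shift (fun R => (cnt (Lam \ Lam13) R : ℝ)) _ 1 h1
    refine tendsto_of_tendsto_of_tendsto_of_le_of_le' hlo hup ?_ ?_
    · filter_upwards [eventually_gt_atTop (1 : ℝ)] with R hR
      exact lower hV _ Set.diff_subset R hR
    · filter_upwards [eventually_gt_atTop (1 : ℝ)] with R hR
      exact upper hV _ Set.diff_subset R hR
  · intro A hAL hAn h11
    refine ⟨fun R => ((cnt Lam (R - 2) : ℝ) - cnt Lam R / 13) / R ^ 3, ?_, ?_⟩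
    · have h1 := shift (fun R => (cnt Lam R : ℝ)) _ (-2) hA1
      have h2 := h1.sub (hA1.div_const 13)
      have e : 4 * Real.pi / 3 / (4 * √2) - 4 * Real.pi / 3 / (4 * √2) / 13 =
          12 / 13 * (Real.pi / √18) := by
        rw [← val]
        ring
      rw [e] at h2
      refine h2.congr fun R => ?_
      show (cnt Lam (R + -2) : ℝ) / R ^ 3 - (cnt Lam R : ℝ) / R ^ 3 / 13 = _
      rw [← sub_eq_add_neg]
      ring
    · filter_upwards [eventually_gt_atTop (1 : ℝ)] with R hR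
      refine le_trans ?_ (lower hV A hAL R hR)
      have hR3 : 0 < R ^ 3 := by positivity
      have hcode := hC A hAL hAn h11
      have h13 := hT (Lam \ A) Set.diff_subset hcode (R - 2)
      rw [sub_add_cancel] at h13
      have h13' : (13 : ℝ) * cnt (Lam \ A) (R - 2) ≤ cnt Lam R := by exact_mod_cast h13
      rw [cnt_sub hF A Lam hAL] at h13'
      apply div_le_div_of_nonneg_right _ hR3.le
      linarith

end Pool.Agent.T6.H18.EL
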