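import Pool.Agent.T6.H18.EL.Defs

/-! Project EL, module PRF: the perfect code. -/

set_option autoImplicit false

namespace Pool.Agent.T6.H18.EL

namespace PRF

/-- the twelve shortest vectors -/
def es : Finset (Fin 3 → ℤ) :=
  {![1, 1, 0], ![1, -1, 0], ![-1, 1, 0], ![-1, -1, 0],
   ![1, 0, 1], ![1, 0, -1], ![-1, 0, 1], ![-1, 0, -1],
   ![0, 1, 1], ![0, 1, -1], ![0, -1, 1], ![0, -1, -1]}

/-- the linear form -/
def phi (v : Fin 3 → ℤ) : ℤ := v 0 + 3 * v 1 + 9 * v 2

theorem card_es : es.card = 12 := by decide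

theorem es_sq : ∀ e ∈ es, sq e = 2 := by
  unfold sq
  decide

theorem es_even : ∀ e ∈ es, Even (e 0 + e 1 + e 2) := by decide

theorem es_inj : ∀ e ∈ es, ∀ f ∈ es, (13 : ℤ) ∣ phi e - phi f → e = f := by
  unfold phi
  decide

theorem nbr_finite (A : Set (Fin 3 → ℤ)) (v : Fin 3 → ℤ) : (nbr A v).Finite := by
  apply (Set.finite_Icc (fun i => v i - 1) (fun i => v i + 1)).subset
  rintro w ⟨-, hw⟩
  unfold sq at hw
  simp only [Pi.sub_apply] at hw
  have key : ∀ i, (w i - v i) ^ 2 ≤ 2 := by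
    intro i
    fin_cases i
    · change (w 0 - v 0) ^ 2 ≤ 2
      nlinarith [sq_nonneg (w 1 - v 1), sq_nonneg (w 2 - v 2)]
    · change (w 1 - v 1) ^ 2 ≤ 2
      nlinarith [sq_nonneg (w 0 - v 0), sq_nonneg (w 2 - v 2)]
    · change (w 2 - v 2) ^ 2 ≤ 2
      nlinarith [sq_nonneg (w 0 - v 0), sq_nonneg (w 1 - v 1)]
  constructor
  · intro i
    have h := key i
    change v i - 1 ≤ w i
    nlinarith
  · intro i
    have h := key i
    change w i ≤ v i + 1
    nlinarith

end PRF

open PRF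

theorem prf : StmPRF := by
  classical
  rintro v ⟨hv, -⟩
  set F := es.filter fun e => ¬ (13 : ℤ) ∣ phi (v + e) with hF
  have h1 : (es.filter fun e => (13 : ℤ) ∣ phi (v + e)).card ≤ 1 := by
    rw [Finset.card_le_one]
    intro a ha b hb
    rw [Finset.mem_filter] at ha hb
    refine es_inj a ha.1 b hb.1 ?_
    have h2 := dvd_sub ha.2 hb.2
    have h3 : phi (v + a) - phi (v + b) = phi a - phi b := by
      unfold phi
      simp only [Pi.add_apply]
      ring
    rwa [h3] at h2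
  have h2 : 11 ≤ F.card := by
    have h3 := Finset.card_filter_add_card_filter_not (s := es) (fun e => (13 : ℤ) ∣ phi (v + e))
    rw [card_es] at h3
    rw [hF]
    omega
  have h3 : (fun e => v + e) '' (F : Set (Fin 3 → ℤ)) ⊆ nbr (Lam \ Lam13) v := by
    rintro _ ⟨e, he, rfl⟩
    rw [Finset.mem_coe, hF, Finset.mem_filter] at he
    have h4 := es_even e he.1
    have h5 : Even (v 0 + v 1 + v 2) := hv
    refine ⟨⟨?_, ?_⟩, ?_⟩
    · change Even ((v + e) 0 + (v + e) 1 + (v + e) 2)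
      have h6 : (v + e) 0 + (v + e) 1 + (v + e) 2 = (v 0 + v 1 + v 2) + (e 0 + e 1 + e 2) := by
        simp only [Pi.add_apply]; ring
      rw [h6]
      exact h5.add h4
    · rintro ⟨-, h7⟩
      exact he.2 h7
    · simp only [add_sub_cancel_left]
      exact es_sq e he.1
  calc 11 ≤ F.card := h2
    _ = (F : Set (Fin 3 → ℤ)).ncard := (Set.ncard_coe_finset F).symm
    _ = ((fun e => v + e) '' (F : Set (Fin 3 → ℤ))).ncard :=
        (Set.ncard_image_of_injective _ (add_right_injective v)).symm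
    _ ≤ _ := Set.ncard_le_ncard h3 (nbr_finite _ v)

end Pool.Agent.T6.H18.EL
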