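import Pool.Agent.T6.H18.EL.Defs

/-!
# Module VOL: the covered volume
-/

set_option autoImplicit false

open MeasureTheory Filter Topology Metric

namespace Pool.Agent.T6.H18.EL

namespace ModVOL

theorem vol_ball (x : E3) : volume (ball x 1) = ENNReal.ofReal (4 * Real.pi / 3) := by
  rw [EuclideanSpace.volume_ball_fin_three]
  rw [ENNReal.ofReal_one, one_pow, one_mul]
  congr 1
  ring

theorem vol_closedBall (x : E3) : volume (closedBall x 1) = ENNReal.ofReal (4 * Real.pi / 3) := by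
  rw [Measure.addHaar_closedBall_eq_addHaar_ball, vol_ball]

end ModVOL

open ModVOL in
theorem vol (hD : StmDIS) : StmVOL := by
  classical
  obtain ⟨hd, hfin, hLam⟩ := hD
  intro A hA R _hR
  have h0 : (0 : ℝ) ≤ 4 * Real.pi / 3 := by positivity
  have hF : ∀ s : ℝ, {v : Fin 3 → ℤ | v ∈ A ∧ ‖pt v‖ ≤ s}.Finite := fun s =>
    (hfin s).subset fun v hv => hv.2
  have hcnt : ∀ s : ℝ, cnt A s = (hF s).toFinset.card := fun s =>
    Set.ncard_eq_toFinset_card _ (hF s)
  have htop : volume (ball (0 : E3) R ∩ ⋃ x ∈ pt '' A, closedBall x 1) ≠ ⊤ :=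
    ((measure_mono Set.inter_subset_left).trans_lt measure_ball_lt_top).ne
  constructor
  · have hsub : (⋃ v ∈ (hF (R - 2)).toFinset, ball (pt v) 1) ⊆
        ball (0 : E3) R ∩ ⋃ x ∈ pt '' A, closedBall x 1 := by
      intro y hy
      obtain ⟨v, hv, hyv⟩ := Set.mem_iUnion₂.1 hy
      have hv' := (hF (R - 2)).mem_toFinset.1 hv
      refine ⟨?_, Set.mem_iUnion₂.2 ⟨pt v, ⟨v, hv'.1, rfl⟩, ball_subset_closedBall hyv⟩⟩
      rw [mem_ball_zero_iff]
      have h1 : ‖y‖ ≤ ‖y - pt v‖ + ‖pt v‖ := by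
        simpa using norm_add_le (y - pt v) (pt v)
      have h2 : ‖y - pt v‖ < 1 := by
        rw [← dist_eq_norm]
        exact hyv
      linarith [hv'.2]
    have hdis : Set.PairwiseDisjoint (↑(hF (R - 2)).toFinset) fun v => ball (pt v) 1 := by
      intro v hv w hw hvw
      have hv' := (hF (R - 2)).mem_toFinset.1 hv
      have hw' := (hF (R - 2)).mem_toFinset.1 hw
      refine ball_disjoint_ball ?_
      rw [hd v w]
      have h1 : (2 : ℝ) ≤ (sq (v - w) : ℝ) := by
        exact_mod_cast hLam v (hA hv'.1) w (hA hw'.1) hvw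
      have h2 : (1 + 1 : ℝ) = √4 := by
        rw [show (4 : ℝ) = 2 ^ 2 by norm_num, Real.sqrt_sq (by norm_num)]
        norm_num
      rw [h2]
      exact Real.sqrt_le_sqrt (by linarith)
    have hm := measure_biUnion_finset (μ := (volume : Measure E3)) hdis
      (fun b _ => measurableSet_ball)
    have h1 := measure_mono (μ := (volume : Measure E3)) hsub
    rw [hm] at h1
    simp only [vol_ball, Finset.sum_const, nsmul_eq_mul] at h1
    have h2 := ENNReal.toReal_mono htop h1
    rw [ENNReal.toReal_mul, ENNReal.toReal_ofReal h0, ENNReal.toReal_natCast] at h2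
    unfold cov
    rw [hcnt, mul_comm]
    exact h2
  · have hsub : ball (0 : E3) R ∩ (⋃ x ∈ pt '' A, closedBall x 1) ⊆
        ⋃ v ∈ (hF (R + 1)).toFinset, closedBall (pt v) 1 := by
      rintro y ⟨hy1, hy2⟩
      obtain ⟨_, ⟨v, hv, rfl⟩, hyv⟩ := Set.mem_iUnion₂.1 hy2
      refine Set.mem_iUnion₂.2 ⟨v, (hF (R + 1)).mem_toFinset.2 ⟨hv, ?_⟩, hyv⟩
      rw [mem_ball_zero_iff] at hy1
      have h1 : ‖pt v‖ ≤ ‖pt v - y‖ + ‖y‖ := by
        simpa using norm_add_le (pt v - y) y
      have h2 : ‖pt v - y‖ ≤ 1 := by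
        rw [← dist_eq_norm, dist_comm]
        exact hyv
      linarith
    have h1 := (measure_mono (μ := (volume : Measure E3)) hsub).trans
      (measure_biUnion_finset_le _ _)
    simp only [vol_closedBall, Finset.sum_const, nsmul_eq_mul] at h1
    have h2 := ENNReal.toReal_mono (ENNReal.mul_ne_top (ENNReal.natCast_ne_top _)
      ENNReal.ofReal_ne_top) h1
    rw [ENNReal.toReal_mul, ENNReal.toReal_ofReal h0, ENNReal.toReal_natCast] at h2
    unfold cov
    rw [hcnt, mul_comm]
    exact h2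

end Pool.Agent.T6.H18.EL
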