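import Mathlib

/-!
# Eleven-neighbour packings inside the face-centred cubic lattice packing (MP_def58e_co)
-/

set_option autoImplicit false

open MeasureTheory Filter Topology Metric

namespace Pool.Agent.T6.H18.EL

/-- Euclidean 3-space -/
abbrev E3 : Type := EuclideanSpace ℝ (Fin 3)

/-- the point of the scaled integer lattice -/
noncomputable def pt (v : Fin 3 → ℤ) : E3 := WithLp.toLp 2 fun i => √2 * (v i : ℝ)

/-- the integer vectors with even sum -/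
def Lam : Set (Fin 3 → ℤ) := {v | Even (v 0 + v 1 + v 2)}

/-- squared length of an integer vector -/
def sq (v : Fin 3 → ℤ) : ℤ := v 0 ^ 2 + v 1 ^ 2 + v 2 ^ 2

/-- the neighbours of `v` in `A` -/
def nbr (A : Set (Fin 3 → ℤ)) (v : Fin 3 → ℤ) : Set (Fin 3 → ℤ) := {w | w ∈ A ∧ sq (w - v) = 2}

/-- the number of the points of `A` in the ball of radius `R` -/
noncomputable def cnt (A : Set (Fin 3 → ℤ)) (R : ℝ) : ℕ := {v | v ∈ A ∧ ‖pt v‖ ≤ R}.ncard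

/-- the part of the ball of radius `R` covered by the unit balls -/
noncomputable def cov (A : Set (Fin 3 → ℤ)) (R : ℝ) : ℝ :=
  (volume (ball (0 : E3) R ∩ ⋃ x ∈ pt '' A, closedBall x 1)).toReal

/-- the sublattice of index 13 -/
def Lam13 : Set (Fin 3 → ℤ) := {v | v ∈ Lam ∧ (13 : ℤ) ∣ v 0 + 3 * v 1 + 9 * v 2}

/-- DIS: distances -/
def StmDIS : Prop := (∀ v w : Fin 3 → ℤ, dist (pt v) (pt w) = √(2 * (sq (v - w) : ℝ))) ∧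
  (∀ R : ℝ, {v : Fin 3 → ℤ | ‖pt v‖ ≤ R}.Finite) ∧ ∀ v ∈ Lam, ∀ w ∈ Lam, v ≠ w → 2 ≤ sq (v - w)

/-- COD: the removed points form a code -/
def StmCOD : Prop := ∀ A : Set (Fin 3 → ℤ), A ⊆ Lam → A.Nonempty →
  (∀ v ∈ A, 11 ≤ (nbr A v).ncard) → ∀ v ∈ Lam \ A, ∀ w ∈ Lam \ A, ∀ u ∈ Lam,
  sq (u - v) ≤ 2 → sq (u - w) ≤ 2 → v = w

/-- PRF: the perfect code -/
def StmPRF : Prop := ∀ v ∈ Lam \ Lam13, 11 ≤ (nbr (Lam \ Lam13) v).ncard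

/-- CCT: counting for codes -/
def StmCCT : Prop := ∀ D : Set (Fin 3 → ℤ), D ⊆ Lam →
  (∀ v ∈ D, ∀ w ∈ D, ∀ u ∈ Lam, sq (u - v) ≤ 2 → sq (u - w) ≤ 2 → v = w) →
  ∀ R : ℝ, 13 * cnt D R ≤ cnt Lam (R + 2)

/-- ASY: lattice points in balls -/
def StmASY : Prop :=
  Tendsto (fun R : ℝ => (cnt Lam R : ℝ) / R ^ 3) atTop (𝓝 (4 * Real.pi / 3 / (4 * √2))) ∧
  Tendsto (fun R : ℝ => (cnt Lam13 R : ℝ) / R ^ 3) atTop (𝓝 (4 * Real.pi / 3 / (52 * √2)))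

/-- VOL: covered volume -/
def StmVOL : Prop := ∀ A : Set (Fin 3 → ℤ), A ⊆ Lam → ∀ R : ℝ, 1 < R →
  4 * Real.pi / 3 * cnt A (R - 2) ≤ cov A R ∧ cov A R ≤ 4 * Real.pi / 3 * cnt A (R + 1)

/-- FIN: the densities -/
def StmFIN : Prop :=
  Tendsto (fun R : ℝ => cov (Lam \ Lam13) R / (4 * Real.pi / 3 * R ^ 3)) atTop
    (𝓝 (12 / 13 * (Real.pi / √18))) ∧
  ∀ A : Set (Fin 3 → ℤ), A ⊆ Lam → A.Nonempty → (∀ v ∈ A, 11 ≤ (nbr A v).ncard) →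
    ∃ g : ℝ → ℝ, Tendsto g atTop (𝓝 (12 / 13 * (Real.pi / √18))) ∧
      ∀ᶠ R in atTop, g R ≤ cov A R / (4 * Real.pi / 3 * R ^ 3)

end Pool.Agent.T6.H18.EL
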