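import Pool.Agent.T6.H18.EL.Defs

/-!
# Project EL: assembly
-/

set_option autoImplicit false

open MeasureTheory Filter Topology Metric

namespace Pool.Agent.T6.H18.EL

/-- the centres of the balls of the face-centred cubic lattice packing of unit balls -/
def fcc : Set (EuclideanSpace ℝ (Fin 3)) :=
  {x | ∃ v : Fin 3 → ℤ, Even (v 0 + v 1 + v 2) ∧ ∀ i, x i = √2 * v i}

/-- `P` is the set of the centres of an eleven-neighbour packing of unit balls -/
def ElevenNeighbour (P : Set (EuclideanSpace ℝ (Fin 3))) : Prop :=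
  (∀ x ∈ P, ∀ y ∈ P, x ≠ y → 2 ≤ dist x y) ∧ ∀ x ∈ P, 11 ≤ {y | y ∈ P ∧ dist x y = 2}.encard

/-- the lower density of the packing of the unit balls with the centres `P` -/
noncomputable def lowerDensity (P : Set (EuclideanSpace ℝ (Fin 3))) : ℝ :=
  liminf (fun R : ℝ => (volume (ball (0 : EuclideanSpace ℝ (Fin 3)) R ∩
    ⋃ x ∈ P, closedBall x 1)).toReal /
      (volume (ball (0 : EuclideanSpace ℝ (Fin 3)) R)).toReal) atTop

namespace ModMain

theorem sq_symm (v w : Fin 3 → ℤ) : sq (v - w) = sq (w - v) := by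
  simp only [sq, Pi.sub_apply]
  ring

theorem dist_two (hD : StmDIS) (v w : Fin 3 → ℤ) : dist (pt v) (pt w) = 2 ↔ sq (w - v) = 2 := by
  rw [hD.1 v w, sq_symm v w]
  have h4 : (2 : ℝ) = √4 := by
    rw [show (4 : ℝ) = 2 ^ 2 by norm_num, Real.sqrt_sq (by norm_num)]
  have h0 : (0 : ℝ) ≤ 2 * (sq (w - v) : ℝ) := by
    have : 0 ≤ sq (w - v) := by
      unfold sq
      positivity
    have : (0 : ℝ) ≤ (sq (w - v) : ℝ) := by exact_mod_cast this
    linarith
  constructor
  · intro h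
    have h1 : (√(2 * (sq (w - v) : ℝ))) ^ 2 = 4 := by rw [h]; norm_num
    rw [Real.sq_sqrt h0] at h1
    have h2 : (sq (w - v) : ℝ) = 2 := by linarith
    exact_mod_cast h2
  · intro h
    rw [h]
    push_cast
    rw [show (2 : ℝ) * 2 = 4 by norm_num, ← h4]

theorem pt_inj (hD : StmDIS) : Function.Injective pt := by
  intro v w h
  have h1 : dist (pt v) (pt w) = 0 := by rw [h, dist_self]
  rw [hD.1 v w] at h1
  have h0 : 0 ≤ sq (v - w) := by
    unfold sq
    positivity
  have h2 : (2 * (sq (v - w) : ℝ)) ≤ 0 := Real.sqrt_eq_zero'.1 h1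
  have h3 : sq (v - w) ≤ 0 := by
    have : (sq (v - w) : ℝ) ≤ 0 := by linarith
    exact_mod_cast this
  have h4 : sq (v - w) = 0 := le_antisymm h3 h0
  unfold sq at h4
  simp only [Pi.sub_apply] at h4
  have a0 : v 0 - w 0 = 0 := by nlinarith [sq_nonneg (v 0 - w 0), sq_nonneg (v 1 - w 1), sq_nonneg (v 2 - w 2)]
  have a1 : v 1 - w 1 = 0 := by nlinarith [sq_nonneg (v 0 - w 0), sq_nonneg (v 1 - w 1), sq_nonneg (v 2 - w 2)]
  have a2 : v 2 - w 2 = 0 := by nlinarith [sq_nonneg (v 0 - w 0), sq_nonneg (v 1 - w 1), sq_nonneg (v 2 - w 2)]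
  funext i
  fin_cases i
  · show v 0 = w 0
    omega
  · show v 1 = w 1
    omega
  · show v 2 = w 2
    omega

theorem nbr_image (hD : StmDIS) (A : Set (Fin 3 → ℤ)) (v : Fin 3 → ℤ) :
    {y | y ∈ pt '' A ∧ dist (pt v) y = 2} = pt '' nbr A v := by
  ext y
  constructor
  · rintro ⟨⟨w, hw, rfl⟩, h⟩
    exact ⟨w, ⟨hw, (dist_two hD v w).1 h⟩, rfl⟩
  · rintro ⟨w, ⟨hw, h⟩, rfl⟩
    exact ⟨⟨w, hw, rfl⟩, (dist_two hD v w).2 h⟩

theorem vol_ball {R : ℝ} (hR : 0 ≤ R) :
    (volume (ball (0 : EuclideanSpace ℝ (Fin 3)) R)).toReal = 4 * Real.pi / 3 * R ^ 3 := by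
  rw [EuclideanSpace.volume_ball_fin_three]
  rw [ENNReal.toReal_mul, ENNReal.toReal_pow, ENNReal.toReal_ofReal hR,
    ENNReal.toReal_ofReal (by positivity)]
  ring

theorem ratio_le (P : Set (EuclideanSpace ℝ (Fin 3))) (R : ℝ) :
    (volume (ball (0 : EuclideanSpace ℝ (Fin 3)) R ∩ ⋃ x ∈ P, closedBall x 1)).toReal /
      (volume (ball (0 : EuclideanSpace ℝ (Fin 3)) R)).toReal ≤ 1 := by
  refine div_le_one_of_le₀ ?_ ENNReal.toReal_nonneg
  exact ENNReal.toReal_mono measure_ball_lt_top.ne (measure_mono Set.inter_subset_left)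

end ModMain

open ModMain in
theorem main (hD : StmDIS) (hP : StmPRF) (hF : StmFIN) :
    IsLeast {δ : ℝ | ∃ P ⊆ fcc, P.Nonempty ∧ ElevenNeighbour P ∧ lowerDensity P = δ}
      (12 / 13 * (Real.pi / √18)) := by
  constructor
  · refine ⟨pt '' (Lam \ Lam13), ?_, ?_, ⟨?_, ?_⟩, ?_⟩
    · rintro x ⟨v, hv, rfl⟩
      exact ⟨v, hv.1, fun i => rfl⟩
    · refine ⟨pt ![1, 1, 0], ![1, 1, 0], ⟨?_, ?_⟩, rfl⟩
      · show Even ((1 : ℤ) + 1 + 0)
        decide
      · intro h
        have h2 : (13 : ℤ) ∣ 1 + 3 * 1 + 9 * 0 := h.2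
        omega
    · rintro x ⟨v, hv, rfl⟩ y ⟨w, hw, rfl⟩ hne
      have hvw : v ≠ w := fun h => hne (by rw [h])
      have h1 := hD.2.2 v hv.1 w hw.1 hvw
      rw [hD.1 v w]
      refine Real.le_sqrt_of_sq_le ?_
      have : (2 : ℝ) ≤ (sq (v - w) : ℝ) := by exact_mod_cast h1
      linarith
    · rintro x ⟨v, hv, rfl⟩
      rw [nbr_image hD, (pt_inj hD).encard_image]
      have h1 := hP v hv
      have hfin : (nbr (Lam \ Lam13) v).Finite := Set.finite_of_ncard_pos (by omega)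
      rw [← hfin.cast_ncard_eq]
      exact_mod_cast h1
    · refine Tendsto.liminf_eq ?_
      refine hF.1.congr' ?_
      filter_upwards [eventually_ge_atTop (0 : ℝ)] with R hR
      rw [vol_ball hR]
      rfl
  · rintro δ ⟨P, hPf, hne, hE, rfl⟩
    set A : Set (Fin 3 → ℤ) := {v | v ∈ Lam ∧ pt v ∈ P} with hA
    have hPA : P = pt '' A := by
      ext x
      constructor
      · intro hx
        obtain ⟨v, hv, hxv⟩ := hPf hx
        have e : x = pt v := by
          ext i
          exact hxv i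
        exact ⟨v, ⟨hv, e ▸ hx⟩, e.symm⟩
      · rintro ⟨v, hv, rfl⟩
        exact hv.2
    have hAne : A.Nonempty := by
      obtain ⟨x, hx⟩ := hne
      rw [hPA] at hx
      obtain ⟨v, hv, -⟩ := hx
      exact ⟨v, hv⟩
    have hAn : ∀ v ∈ A, 11 ≤ (nbr A v).ncard := by
      intro v hv
      have h1 := hE.2 (pt v) hv.2
      have h2 : {y | y ∈ P ∧ dist (pt v) y = 2} = pt '' nbr A v := by
        rw [← nbr_image hD, ← hPA]
      rw [h2, (pt_inj hD).encard_image] at h1
      have hfin : (nbr A v).Finite := by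
        refine (hD.2.1 (‖pt v‖ + 2)).subset ?_
        rintro w ⟨-, hw⟩
        have h3 := (dist_two hD v w).2 hw
        show ‖pt w‖ ≤ ‖pt v‖ + 2
        have h4 : ‖pt w‖ ≤ ‖pt v‖ + dist (pt v) (pt w) := by
          rw [dist_comm, dist_eq_norm]
          have : pt w = pt v + (pt w - pt v) := by abel
          calc ‖pt w‖ = ‖pt v + (pt w - pt v)‖ := by rw [← this]
            _ ≤ _ := norm_add_le _ _
        linarith
      rw [← hfin.cast_ncard_eq] at h1
      exact_mod_cast h1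
    obtain ⟨g, hg, hgl⟩ := hF.2 A (fun v hv => hv.1) hAne hAn
    refine le_of_forall_pos_sub_le fun ε hε => ?_
    unfold lowerDensity
    refine le_liminf_of_le ?_ ?_
    · exact IsBoundedUnder.isCoboundedUnder_ge ⟨1, by
        rw [eventually_map]
        exact Eventually.of_forall fun R => ratio_le P R⟩
    · have h1 : ∀ᶠ R in atTop, 12 / 13 * (Real.pi / √18) - ε < g R :=
        hg.eventually (lt_mem_nhds (by linarith))
      filter_upwards [h1, hgl, eventually_ge_atTop (0 : ℝ)] with R h2 h3 h4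
      rw [vol_ball h4]
      have e : (volume (ball (0 : EuclideanSpace ℝ (Fin 3)) R ∩
          ⋃ x ∈ P, closedBall x 1)).toReal = cov A R := by
        unfold cov
        rw [← hPA]
      rw [e]
      linarith

end Pool.Agent.T6.H18.EL
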